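import Pool.Agent.Y503.RB.GapAll

/-!
# Ribbon surfaces are the surfaces of total horospherical curvature zero

Gap theorem: the surfaces in the four-ball with a given boundary which are obtained from a given
one by a diffeomorphism contain a surface on which the distance from the origin is a Morse function
without local maxima (a ribbon surface) if and only if they contain one of total horospherical
curvature less than `2 π²`, if and only if they contain one of total horospherical curvature zero.
-/

set_option autoImplicit false

namespace Pool.Agent.Results.MP_177a0e_gt.CurvatureGap

open Pool.Agent.Y503.RB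
open MeasureTheory Metric

theorem result (F : Set E4) :
    List.TFAE [
      ∃ F' : Set E4, PSurf F' ∧ SameType F F' ∧ (0 : E4) ∉ F' ∧ MorseSurf F' 0,
      ∃ F' : Set E4, PSurf F' ∧ SameType F F' ∧ totalCurv F' < ENNReal.ofReal (2 * Real.pi ^ 2),
      ∃ F' : Set E4, PSurf F' ∧ SameType F F' ∧ totalCurv F' = 0] :=
  gapSurf F

end Pool.Agent.Results.MP_177a0e_gt.CurvatureGap
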