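import Pool.Agent.Y503.RB.All

/-!
# Surfaces of small total horospherical curvature in the four-ball are ribbon surfaces

`totalCurv F` is the integral over the surface `F` and over the circle of unit normal vectors `n`, of
the density `rad (1 - rad)⁻³ det (rad • II_n - I) / √det I`, taken only where the form
`rad • II_n - I` is positive definite, that is, where the surface curves more strongly towards `n`
than the horosphere with normal `n` in all tangential directions (`rad` is the Euclidean radius of
this horosphere).

If it is less than `2 π² (m + 1)` then a diffeomorphism of the ball minus a boundary point, which is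
the identity on the sphere, turns `F` into a surface with the same boundary (diffeomorphic to `F`, so
of the same genus) on which the distance from the origin is a Morse function with at most `m` local
maxima in the interior. For `m = 0` this is a ribbon surface.
-/

set_option autoImplicit false

namespace Pool.Agent.Results.MP_177a0e_gt.HorosphericalCurvature

open Pool.Agent.Y503.RB
open MeasureTheory Metric
open scoped ContDiff

theorem result (F : Set E4) (h : PSurf F) (m : ℕ)
    (hT : totalCurv F < ENNReal.ofReal (2 * Real.pi ^ 2 * (m + 1))) :
    ∃ ξ : E4, ‖ξ‖ = 1 ∧ ξ ∉ F ∧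
      (∀ x ∈ F, ContDiffAt ℝ ∞ (push ξ) x ∧ ContDiffAt ℝ ∞ (pull ξ) (push ξ x) ∧
        pull ξ (push ξ x) = x) ∧
      (∀ x ∈ F, ‖x‖ = 1 → push ξ x = x) ∧
      PSurf (push ξ '' F) ∧ push ξ '' F ∩ sphere 0 1 = F ∩ sphere 0 1 ∧
      MorseSurf (push ξ '' F) m :=
  surfaces F h m hT

end Pool.Agent.Results.MP_177a0e_gt.HorosphericalCurvature
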